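import Pool.Agent.W889.SR.Stm2

/-!
Project SR2 (helper889), MP_efc3dd_lc: part FATEX (existence of fat trees).
-/

set_option autoImplicit false

namespace Pool.Agent.W636.SR

open Set Ordinal Pool.Agent.W889.SR

/-- decreasing sequences (the last added element is the head and the smallest) -/
def PL (Om : Ordinal.{0}) : Type :=
  {l : List (Om.ToType × ℕ) // l.Pairwise (fun p q => p.1 < q.1)}

def PL.le {Om : Ordinal.{0}} (l l' : PL Om) : Prop := l.1 <:+ l'.1

noncomputable def PL.rkL {Om : Ordinal.{0}} : List (Om.ToType × ℕ) → Ordinal.{0}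
  | [] => Om
  | a :: _ => (ToType.toOrd a.1).1

noncomputable def PL.rk {Om : Ordinal.{0}} (l : PL Om) : Ordinal.{0} := PL.rkL l.1

theorem suffix_antisymm {α : Type} {l l' : List α} (h : l <:+ l') (h' : l' <:+ l) : l = l' :=
  h.eq_of_length_le h'.length_le

theorem PL.isTree (Om : Ordinal.{0}) : IsTree (PL.le (Om := Om)) where
  refl x := List.suffix_rfl
  antisymm x y h h' := Subtype.ext (suffix_antisymm h h')
  trans x y z h h' := List.IsSuffix.trans h h'
  root := ⟨⟨[], List.Pairwise.nil⟩, fun x => List.nil_suffix⟩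
  fin x := by
    have h : (Subtype.val ⁻¹' {l | l ∈ x.1.tails} : Set (PL Om)).Finite := by
      refine Set.Finite.preimage (Subtype.val_injective.injOn) ?_
      exact List.finite_toSet _
    refine h.subset fun y hy => ?_
    have hy' : y.1 <:+ x.1 := hy
    exact (List.mem_tails _ _).2 hy'
  chain x y z h h' := List.suffix_or_suffix_of_suffix h h'

theorem PL.child_of {Om : Ordinal.{0}} {x c : PL Om} (h : Ch PL.le x c) :
    ∃ a, c.1 = a :: x.1 := by
  obtain ⟨h1, h2, h3⟩ := h
  obtain ⟨c, hc⟩ := c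
  cases c with
  | nil =>
    exfalso
    apply h2
    apply Subtype.ext
    exact List.suffix_nil.1 h1
  | cons a t =>
    have ht : t.Pairwise (fun p q : Om.ToType × ℕ => p.1 < q.1) := (List.pairwise_cons.1 hc).2
    have h1' : x.1 <:+ a :: t := h1
    rw [List.suffix_cons_iff] at h1'
    rcases h1' with h1' | h1'
    · exact absurd (Subtype.ext h1') h2
    · rcases h3 ⟨t, ht⟩ h1' (List.suffix_cons a t) with h4 | h4
      · refine ⟨a, ?_⟩
        rw [← h4]
      · exfalso
        have := congrArg (fun z : PL Om => z.1.length) h4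
        simp at this

theorem PL.child_cons {Om : Ordinal.{0}} {x c : PL Om} (a : Om.ToType × ℕ) (h : c.1 = a :: x.1) :
    Ch PL.le x c := by
  refine ⟨?_, ?_, ?_⟩
  · change x.1 <:+ c.1
    rw [h]; exact List.suffix_cons _ _
  · intro h'
    have := congrArg (fun z : PL Om => z.1.length) h'
    simp [h] at this
  · intro z h1 h2
    have h2' : z.1 <:+ c.1 := h2
    rw [h, List.suffix_cons_iff] at h2'
    rcases h2' with h2' | h2'
    · right; apply Subtype.ext; rw [h2', h]
    · left; exact Subtype.ext (suffix_antisymm h2' h1)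

theorem PL.rk_lt {Om : Ordinal.{0}} {x c : PL Om} (h : Ch PL.le x c) : PL.rk c < PL.rk x := by
  obtain ⟨a, ha⟩ := PL.child_of h
  obtain ⟨x, hx⟩ := x
  obtain ⟨c, hc⟩ := c
  subst ha
  unfold PL.rk
  cases x with
  | nil => exact (ToType.toOrd a.1).2
  | cons b t =>
    have h1 : a.1 < b.1 := (List.pairwise_cons.1 hc).1 b (by simp)
    change (ToType.toOrd a.1).1 < (ToType.toOrd b.1).1
    exact (ToType.mk.symm.lt_iff_lt (x := a.1) (y := b.1)).2 h1

theorem PL.ext_ok {Om : Ordinal.{0}} (x : PL Om) (σ : Ordinal.{0}) (hσ : σ < PL.rk x)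
    (hO : σ < Om) (n : ℕ) : ((ToType.mk ⟨σ, hO⟩, n) :: x.1).Pairwise (fun p q => p.1 < q.1) := by
  obtain ⟨x, hx⟩ := x
  refine List.pairwise_cons.2 ⟨?_, hx⟩
  intro b hb
  cases x with
  | nil => simp at hb
  | cons b0 t =>
    have h0 : (ToType.mk ⟨σ, hO⟩ : Om.ToType) < b0.1 := by
      have h1 : σ < (ToType.toOrd b0.1).1 := hσ
      have h2 : (⟨σ, hO⟩ : Set.Iio Om) < ToType.toOrd b0.1 := h1
      have h3 := ToType.mk.lt_iff_lt.2 h2
      simpa using h3
    rcases List.mem_cons.1 hb with rfl | hb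
    · exact h0
    · exact h0.trans ((List.pairwise_cons.1 hx).1 b hb)

theorem PL.rk_le {Om : Ordinal.{0}} (x : PL Om) : PL.rk x ≤ Om := by
  obtain ⟨x, hx⟩ := x
  unfold PL.rk
  cases x with
  | nil => exact le_rfl
  | cons b t => exact le_of_lt (ToType.toOrd b.1).2

theorem PL.inf {Om : Ordinal.{0}} (x : PL Om) (σ : Ordinal.{0}) (hσ : σ < PL.rk x) :
    {c | Ch PL.le x c ∧ PL.rk c = σ}.Infinite := by
  have hO : σ < Om := lt_of_lt_of_le hσ (PL.rk_le x)
  refine Set.infinite_of_injective_forall_mem (f := fun n : ℕ =>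
    (⟨(ToType.mk ⟨σ, hO⟩, n) :: x.1, PL.ext_ok x σ hσ hO n⟩ : PL Om)) ?_ ?_
  · intro n m h
    have h1 := congrArg (fun z : PL Om => z.1) h
    simp only [List.cons.injEq, Prod.mk.injEq, true_and, and_true] at h1
    exact h1
  · intro n
    refine ⟨PL.child_cons _ rfl, ?_⟩
    change (ToType.toOrd (ToType.mk ⟨σ, hO⟩)).1 = σ
    simp

theorem fatex : FATEX_stmt := by
  intro Om hOm
  have hc : Countable (Set.Iio Om) := hOm
  have hT : Countable Om.ToType := (ToType.mk (o := Om)).toEquiv.symm.injective.countable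
  have hX : Countable (PL Om) := by unfold PL; infer_instance
  refine ⟨PL Om, hX, PL.le, PL.rk, ⟨PL.isTree Om, fun x c h => PL.rk_lt h, fun x σ h => PL.inf x σ h⟩,
    ⟨[], List.Pairwise.nil⟩, rfl⟩

end Pool.Agent.W636.SR
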